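import Pool.Agent.W2helper31.GP.Stm2

/-! Piece KAP2 of project GP (helper31): the expectation of `log g ^ 2` is at least `-(γ + log 2)`. -/

set_option autoImplicit false

open MeasureTheory ProbabilityTheory Filter Topology
open scoped ENNReal NNReal

namespace Pool.Agent.W2helper69.GP

open Pool.Agent.W2helper31.GP

/-- the moments as a function -/
noncomputable def mo (s : ℝ) : ℝ := 2 ^ (-s) * Real.Gamma (1 / 2 - s) / Real.sqrt Real.pi

lemma mo_zero : mo 0 = 1 := by
  unfold mo
  rw [neg_zero, Real.rpow_zero, one_mul, sub_zero, Real.Gamma_one_half_eq]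
  exact div_self (by positivity)

lemma mo_deriv : HasDerivAt mo (Real.eulerMascheroniConstant + Real.log 2) 0 := by
  have h1 : HasDerivAt (fun s : ℝ => (2 : ℝ) ^ (-s)) (-Real.log 2) 0 := by
    have := (hasDerivAt_neg (0 : ℝ)).const_rpow (a := (2 : ℝ)) (by norm_num)
    simpa using this
  have h2 : HasDerivAt (fun s : ℝ => Real.Gamma (1 / 2 - s))
      (Real.sqrt Real.pi * (Real.eulerMascheroniConstant + 2 * Real.log 2)) 0 := by
    have h3 : HasDerivAt (fun s : ℝ => (1 / 2 : ℝ) - s) (-1) 0 :=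
      (hasDerivAt_id (0 : ℝ)).const_sub (1 / 2)
    have h4 : HasDerivAt Real.Gamma
        (-Real.sqrt Real.pi * (Real.eulerMascheroniConstant + 2 * Real.log 2))
        ((fun s : ℝ => (1 / 2 : ℝ) - s) 0) := by
      simpa using Real.hasDerivAt_Gamma_one_half
    have h5 := h4.comp (0 : ℝ) h3
    have e5 : -Real.sqrt Real.pi * (Real.eulerMascheroniConstant + 2 * Real.log 2) * -1 =
        Real.sqrt Real.pi * (Real.eulerMascheroniConstant + 2 * Real.log 2) := by ring
    rw [e5] at h5
    exact h5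
  have h6 := (h1.mul h2).div_const (Real.sqrt Real.pi)
  have hpi : Real.sqrt Real.pi ≠ 0 := by positivity
  have e6 : (-Real.log 2 * Real.Gamma (1 / 2 - 0) + (2 : ℝ) ^ (-(0 : ℝ)) *
      (Real.sqrt Real.pi * (Real.eulerMascheroniConstant + 2 * Real.log 2))) / Real.sqrt Real.pi =
      Real.eulerMascheroniConstant + Real.log 2 := by
    rw [neg_zero, Real.rpow_zero, sub_zero, Real.Gamma_one_half_eq]
    field_simp
    ring
  rw [e6] at h6
  exact h6

/-- KAP2 -/
theorem p_kap2 : P_KAP2 := by
  intro hM hK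
  have hne : ∀ᵐ x ∂(gaussianReal 0 1), x ≠ 0 := by
    have h1 : gaussianReal 0 1 ≪ volume := gaussianReal_absolutelyContinuous 0 one_ne_zero
    have h2 : ∀ᵐ x ∂(volume : Measure ℝ), x ≠ 0 := by
      rw [ae_iff]
      simp
    exact h1.ae_le h2
  have key : ∀ s : ℝ, 0 < s → s < 1 / 2 → -kap ≤ s⁻¹ * (mo s - mo 0) := by
    intro s h0 h1
    obtain ⟨hi, he⟩ := hM (-(2 * s)) (by linarith)
    have e1 : 2 ^ (-(2 * s) / 2) * Real.Gamma ((-(2 * s) + 1) / 2) / Real.sqrt Real.pi = mo s := by
      unfold mo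
      congr 3
      · ring
      · ring
    rw [e1] at he
    have hlin : Integrable (fun x : ℝ => 1 - s * (2 * Real.log x)) (gaussianReal 0 1) :=
      (integrable_const 1).sub ((hK.1.const_mul 2).const_mul s)
    have h2 : ∫ x, (1 - s * (2 * Real.log x)) ∂(gaussianReal 0 1) ≤
        ∫ x, |x| ^ (-(2 * s)) ∂(gaussianReal 0 1) := by
      refine integral_mono_ae hlin hi ?_
      filter_upwards [hne] with x hx
      have h3 : 0 < |x| := abs_pos.2 hx
      rw [Real.rpow_def_of_pos h3, Real.log_abs]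
      have := Real.add_one_le_exp (Real.log x * -(2 * s))
      linarith
    rw [he, integral_sub (integrable_const 1) ((hK.1.const_mul 2).const_mul s),
      integral_const_mul] at h2
    have h4 : ∫ _x : ℝ, (1 : ℝ) ∂(gaussianReal 0 1) = 1 := by simp
    rw [h4] at h2
    have h5 : 1 - s * kap ≤ mo s := h2
    rw [mo_zero, le_inv_mul_iff₀ h0]
    linarith
  have ht := mo_deriv.tendsto_slope_zero_right
  have hle : -kap ≤ Real.eulerMascheroniConstant + Real.log 2 := by
    refine ge_of_tendsto ht ?_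
    have hm : Set.Ioo (0 : ℝ) (1 / 2) ∈ 𝓝[>] (0 : ℝ) := Ioo_mem_nhdsGT (by norm_num)
    filter_upwards [hm] with s hs
    simpa using key s hs.1 hs.2
  linarith

end Pool.Agent.W2helper69.GP
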